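import Pool.Agent.Lib.MP_28303a_al.NT.EX.Defs

/-! # The values at the vertices as a sum over the edges -/

set_option autoImplicit false
set_option linter.unusedSectionVars false
set_option linter.unusedVariables false

namespace Pool.Agent.NegK.NT.EX67

universe u

open CategoryTheory Limits Opposite
open Pool.Agent.NegK.NT.ER Pool.Agent.NegK.NT.EX

/-! ### Boxes with a mark -/

section

variable {Γ : Type u} [Group Γ] {T : Sys Γ} {j : Fin T.m}

theorem up_le_up {g : Γ} {U V : T.Box} (h : (T.P (Finset.univ.erase j)).le U (g • V))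
    {c c' : T.B j} (hc : c' ≤ g • c) :
    (T.P Finset.univ).le (T.up j U c') (g • T.up j V c) := by
  intro i _
  show Function.update U j c' i ≤ g • Function.update V j c i
  by_cases hi : i = j
  · subst hi
    rw [Function.update_self, Function.update_self]
    exact hc
  · rw [Function.update_of_ne hi, Function.update_of_ne hi]
    exact h i (Finset.mem_erase.2 ⟨hi, Finset.mem_univ i⟩)

theorem up_le_up' {U V : T.Box} (h : (T.P (Finset.univ.erase j)).le U V)
    {c c' : T.B j} (hc : c' ≤ c) :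
    (T.P Finset.univ).le (T.up j U c') (T.up j V c) := by
  have h1 := up_le_up (g := (1 : Γ)) (U := U) (V := V) (by rwa [one_smul])
    (c := c) (c' := c') (by rwa [one_smul])
  rwa [one_smul] at h1

end

/-! ### Sums over an equivariant family of labels -/

section

variable {k : Type u} [Ring k] {ι : Type u} (inst : DecidableEq ι) (β : ι → Type u)
  [∀ i, AddCommGroup (β i)] [∀ i, Module k (β i)]

theorem c_l (i : ι) (z : β i) :
    DirectSum.component k ι β i (DirectSum.lof k ι β i z) = z :=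
  DFinsupp.single_eq_same

theorem c_l_ne {i i' : ι} (h : i' ≠ i) (z : β i) :
    DirectSum.component k ι β i' (DirectSum.lof k ι β i z) = 0 :=
  DFinsupp.single_eq_of_ne h

end

section

variable {Γ : Type u} [Group Γ] {T : Sys Γ} {j : Fin T.m}

/-- The morphism between the boxes with a changed coordinate. -/
noncomputable def tu {U V : T.Box} (g : Γ) (hg : (T.P (Finset.univ.erase j)).le U (g • V))
    {c c' : T.B j} (h : c' = g • c) :
    (Bx.of (T.up j U c') : Bx (T.P Finset.univ)) ⟶ Bx.of (T.up j V c) :=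
  Bx.mk' g (up_le_up hg h.le)

@[simp] theorem el_tu {U V : T.Box} (g : Γ) (hg : (T.P (Finset.univ.erase j)).le U (g • V))
    {c c' : T.B j} (h : c' = g • c) : Bx.el (tu g hg h) = g := rfl

variable {X : Type u} [MulAction Γ X] (c : X → T.B j)
  (hc : ∀ (g : Γ) (x : X), c (g • x) = g • c x) {k : Type u} [Ring k]
  (M : Fn k (T.P Finset.univ))

theorem mm {U V W : Bx (T.P Finset.univ)} (p : U ⟶ V) (q : V ⟶ W) (z : M.obj (op W)) :
    (M.map p.op).hom ((M.map q.op).hom z) = (M.map (p ≫ q).op).hom z := by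
  rw [op_comp, M.map_comp]
  rfl

theorem m_eq {U V : Bx (T.P Finset.univ)} {p q : U ⟶ V} (h : Bx.el p = Bx.el q)
    (z : M.obj (op V)) : (M.map p.op).hom z = (M.map q.op).hom z := by
  obtain rfl : p = q := Bx.hom_ext h
  rfl

/-- The sum of the values at the labels `c x`. -/
abbrev SS (U : T.Box) : Type u := DirectSum X fun x => M.obj (op (Bx.of (T.up j U (c x))))

open Classical in
/-- A summand. -/
noncomputable abbrev sl (U : T.Box) (x : X) :
    M.obj (op (Bx.of (T.up j U (c x)))) →ₗ[k] SS c M U :=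
  DirectSum.lof k X (fun x => M.obj (op (Bx.of (T.up j U (c x))))) x

/-- A component. -/
noncomputable abbrev cp (U : T.Box) (x : X) :
    SS c M U →ₗ[k] M.obj (op (Bx.of (T.up j U (c x)))) :=
  DirectSum.component k X (fun x => M.obj (op (Bx.of (T.up j U (c x))))) x

theorem cp_sl (U : T.Box) (x : X) (z : M.obj (op (Bx.of (T.up j U (c x))))) :
    cp c M U x (sl c M U x z) = z := by
  classical
  exact DFinsupp.single_eq_same (β := fun x => M.obj (op (Bx.of (T.up j U (c x)))))

theorem cp_sl_ne (U : T.Box) {x x' : X} (h : x ≠ x') (z : M.obj (op (Bx.of (T.up j U (c x))))) :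
    cp c M U x' (sl c M U x z) = 0 := by
  classical
  exact DFinsupp.single_eq_of_ne h.symm

theorem sl_eq {U : T.Box} {x x' : X} (h : x = x') {d : Bx (T.P Finset.univ)}
    (a : (Bx.of (T.up j U (c x)) : Bx (T.P Finset.univ)) ⟶ d)
    (b : (Bx.of (T.up j U (c x')) : Bx (T.P Finset.univ)) ⟶ d) (hab : Bx.el a = Bx.el b)
    (z : M.obj (op d)) : sl c M U x ((M.map a.op).hom z) = sl c M U x' ((M.map b.op).hom z) := by
  subst h
  obtain rfl : a = b := Bx.hom_ext hab
  rfl

theorem cp_eq {U : T.Box} {x x' : X} (h : x = x') {d : Bx (T.P Finset.univ)}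
    (a : d ⟶ (Bx.of (T.up j U (c x)) : Bx (T.P Finset.univ)))
    (b : d ⟶ (Bx.of (T.up j U (c x')) : Bx (T.P Finset.univ))) (hab : Bx.el a = Bx.el b)
    (y : SS c M U) : (M.map a.op).hom (cp c M U x y) = (M.map b.op).hom (cp c M U x' y) := by
  subst h
  obtain rfl : a = b := Bx.hom_ext hab
  rfl

theorem s_ext {U : T.Box} {Y : Type u} [AddCommGroup Y] [Module k Y]
    {f g : SS c M U →ₗ[k] Y} (h : ∀ x z, f (sl c M U x z) = g (sl c M U x z)) : f = g := by
  classical
  exact DirectSum.linearMap_ext k fun x => LinearMap.ext fun z => h x z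

open Classical in
/-- The transport. -/
noncomputable def ta {U V : T.Box} (g : Γ) (hg : (T.P (Finset.univ.erase j)).le U (g • V)) :
    SS c M V →ₗ[k] SS c M U :=
  DirectSum.toModule k X _ fun x => sl c M U (g • x) ∘ₗ (M.map (tu g hg (hc g x)).op).hom

theorem ta_sl {U V : T.Box} (g : Γ) (hg : (T.P (Finset.univ.erase j)).le U (g • V)) (x : X)
    (z : M.obj (op (Bx.of (T.up j V (c x))))) : ta c hc M g hg (sl c M V x z) =
      sl c M U (g • x) ((M.map (tu g hg (hc g x)).op).hom z) := by
  classical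
  rw [ta]
  erw [DirectSum.toModule_lof]
  rfl

theorem cp_ta {U V : T.Box} (g : Γ) (hg : (T.P (Finset.univ.erase j)).le U (g • V)) (x : X)
    (y : SS c M V) : cp c M U (g • x) (ta c hc M g hg y) =
      (M.map (tu g hg (hc g x)).op).hom (cp c M V x y) := by
  have h : cp c M U (g • x) ∘ₗ ta c hc M g hg =
      (M.map (tu g hg (hc g x)).op).hom ∘ₗ cp c M V x := by
    refine s_ext c M fun x' z => ?_
    rw [LinearMap.comp_apply, LinearMap.comp_apply, ta_sl]
    by_cases h : x' = x
    · subst h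
      rw [cp_sl, cp_sl]
    · rw [cp_sl_ne c M U (fun h' => h (smul_left_cancel _ h')), cp_sl_ne c M V h, map_zero]
  exact LinearMap.congr_fun h y

open Classical in
/-- A part of a sum. -/
noncomputable def pr (q : X → Prop) (U : T.Box) : SS c M U →ₗ[k] SS c M U :=
  DirectSum.toModule k X _ fun x => if q x then sl c M U x else 0

theorem pr_pos {q : X → Prop} (U : T.Box) {x : X} (h : q x)
    (z : M.obj (op (Bx.of (T.up j U (c x))))) : pr c M q U (sl c M U x z) = sl c M U x z := by
  classical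
  rw [pr]
  erw [DirectSum.toModule_lof]
  rw [if_pos h]

theorem pr_neg {q : X → Prop} (U : T.Box) {x : X} (h : ¬ q x)
    (z : M.obj (op (Bx.of (T.up j U (c x))))) : pr c M q U (sl c M U x z) = 0 := by
  classical
  rw [pr]
  erw [DirectSum.toModule_lof]
  rw [if_neg h]
  rfl

theorem cp_pr {q : X → Prop} (U : T.Box) {x : X} (h : ¬ q x) (y : SS c M U) :
    cp c M U x (pr c M q U y) = 0 := by
  have h1 : cp c M U x ∘ₗ pr c M q U = 0 := by
    refine s_ext c M fun x' z => ?_
    rw [LinearMap.comp_apply, LinearMap.zero_apply]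
    by_cases h' : q x'
    · rw [pr_pos c M U h', cp_sl_ne c M U (fun h2 => h (by rwa [← h2]))]
    · rw [pr_neg c M U h', map_zero]
  exact LinearMap.congr_fun h1 y

end

/-! ### The differential -/

section

variable {Γ : Type u} [Group Γ] {T : Sys Γ} {D : T.Tr} {j : Fin T.m} [MulAction Γ (D.V j)]
  [MulAction Γ (D.E j)] (K : Mk D j) {k : Type u} [Ring k] (M : Fn k (T.P Finset.univ))

/-- The start and the target of an edge. -/
def en (b : Bool) (e : D.E j) : D.V j := cond b (D.s j e) (D.t j e)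

theorem enle (b : Bool) (e : D.E j) : D.vt j (en b e) ≤ D.ed j e := by
  cases b
  · exact D.tle j e
  · exact D.sle j e

include K in
theorem en_smul (b : Bool) (g : Γ) (e : D.E j) : en b (g • e) = g • en b e := by
  cases b
  · exact K.t_smul g e
  · exact K.s_smul g e

/-- The sign of an end. -/
def sg (b : Bool) : ℤ := cond b 1 (-1)

theorem sg_sg (b : Bool) {Y : Type u} [AddCommGroup Y] (y : Y) : sg b • sg b • y = y := by
  cases b
  · show (-1 : ℤ) • (-1 : ℤ) • y = y
    rw [neg_one_smul, neg_one_smul, neg_neg]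
  · show (1 : ℤ) • (1 : ℤ) • y = y
    rw [one_smul, one_smul]

/-- The restriction to an end. -/
noncomputable def rb (b : Bool) (U : T.Box) (e : D.E j) :
    M.obj (op (Bx.of (T.up j U (D.ed j e)))) →ₗ[k] M.obj (op (Bx.of (T.up j U (D.vt j (en b e))))) :=
  (M.map (Bx.ofLe (T.up_le _ j U (enle b e))).op).hom

theorem bd_sl (U : T.Box) (e : D.E j) (z : M.obj (op (Bx.of (T.up j U (D.ed j e))))) :
    D.bd M j U (sl (D.ed j) M U e z) =
      sl (D.vt j) M U (en true e) (rb M true U e z) -
      sl (D.vt j) M U (en false e) (rb M false U e z) := by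
  classical
  rw [Sys.Tr.bd]
  erw [DirectSum.toModule_lof]
  rfl

theorem bd_sl' (b : Bool) (U : T.Box) (e : D.E j)
    (z : M.obj (op (Bx.of (T.up j U (D.ed j e))))) :
    D.bd M j U (sl (D.ed j) M U e z) =
      sg b • sl (D.vt j) M U (en b e) (rb M b U e z) +
      sg (!b) • sl (D.vt j) M U (en (!b) e) (rb M (!b) U e z) := by
  rw [bd_sl]
  cases b
  · show _ = (-1 : ℤ) • sl (D.vt j) M U (en false e) (rb M false U e z) +
      (1 : ℤ) • sl (D.vt j) M U (en true e) (rb M true U e z)
    rw [neg_one_smul, one_smul]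
    abel
  · show _ = (1 : ℤ) • sl (D.vt j) M U (en true e) (rb M true U e z) +
      (-1 : ℤ) • sl (D.vt j) M U (en false e) (rb M false U e z)
    rw [neg_one_smul, one_smul]
    abel

/-- The differential is natural. -/
theorem bd_ta {U V : T.Box} (g : Γ) (hg : (T.P (Finset.univ.erase j)).le U (g • V))
    (y : SS (D.ed j) M V) :
    D.bd M j U (ta (D.ed j) K.ed_smul M g hg y) =
      ta (D.vt j) K.vt_smul M g hg (D.bd M j V y) := by
  have h : D.bd M j U ∘ₗ ta (D.ed j) K.ed_smul M g hg =
      ta (D.vt j) K.vt_smul M g hg ∘ₗ D.bd M j V := by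
    refine s_ext (D.ed j) M fun e z => ?_
    rw [LinearMap.comp_apply, LinearMap.comp_apply, ta_sl, bd_sl, bd_sl, map_sub, ta_sl, ta_sl,
      rb, rb, rb, rb, mm, mm, mm, mm]
    congr 1
    · refine sl_eq (D.vt j) M (en_smul K true _ e) _ _ ?_ z
      simp
    · refine sl_eq (D.vt j) M (en_smul K false _ e) _ _ ?_ z
      simp
  exact LinearMap.congr_fun h y

variable (hM : D.Tac M j)

/-- The inverse of the differential. -/
noncomputable def bi (U : T.Box) : SS (D.vt j) M U →ₗ[k] SS (D.ed j) M U :=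
  (LinearEquiv.ofBijective (D.bd M j U) (hM U)).symm.toLinearMap

theorem bd_bi (U : T.Box) (x : SS (D.vt j) M U) : D.bd M j U (bi M hM U x) = x :=
  (LinearEquiv.ofBijective (D.bd M j U) (hM U)).apply_symm_apply x

theorem bi_bd (U : T.Box) (x : SS (D.ed j) M U) : bi M hM U (D.bd M j U x) = x :=
  (LinearEquiv.ofBijective (D.bd M j U) (hM U)).symm_apply_apply x

theorem bi_ta {U V : T.Box} (g : Γ) (hg : (T.P (Finset.univ.erase j)).le U (g • V))
    (x : SS (D.vt j) M V) :
    bi M hM U (ta (D.vt j) K.vt_smul M g hg x) =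
      ta (D.ed j) K.ed_smul M g hg (bi M hM V x) := by
  rw [← bi_bd M hM U (ta (D.ed j) K.ed_smul M g hg _), bd_ta K, bd_bi]

/-! ### Separation -/

variable {sd : D.E j → D.V j → Prop} (hs : Sides D j sd)

/-- The sides of an edge. -/
def side (sd : D.E j → D.V j → Prop) (b : Bool) (e : D.E j) (v : D.V j) : Prop :=
  sd e v ↔ b = true

include hs in
theorem side_en (b : Bool) (e : D.E j) : side sd b e (en b e) := by
  cases b
  · exact ⟨fun h => absurd h (hs.t e), fun h => absurd h (by decide)⟩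
  · exact ⟨fun _ => rfl, fun _ => hs.s e⟩

theorem side_not {b : Bool} {e : D.E j} {v : D.V j} (h : side sd b e v) :
    ¬ side sd (!b) e v := by
  intro h'
  have h1 : b = true ↔ (!b) = true := h.symm.trans h'
  cases b
  · exact absurd (h1.2 rfl) (by decide)
  · exact absurd (h1.1 rfl) (by decide)

include hs in
theorem side_ne (b : Bool) {e e' : D.E j} (h : e' ≠ e) (c : Bool) :
    side sd b e (en c e') ↔ side sd b e (D.s j e') := by
  cases c
  · exact iff_congr (hs.ne e e' h).symm Iff.rfl
  · exact Iff.rfl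

/-- The edges on the side `b` of `e`. -/
def qe (sd : D.E j → D.V j → Prop) (b : Bool) (e e' : D.E j) : Prop :=
  e' ≠ e ∧ side sd b e (D.s j e')

include hs in
theorem bd_pr (b : Bool) (U : T.Box) (e : D.E j) (y : SS (D.ed j) M U) :
    pr (D.vt j) M (side sd b e) U (D.bd M j U y) =
      D.bd M j U (pr (D.ed j) M (qe sd b e) U y) +
        sg b • sl (D.vt j) M U (en b e) (rb M b U e (cp (D.ed j) M U e y)) := by
  have h : pr (D.vt j) M (side sd b e) U ∘ₗ D.bd M j U =
      D.bd M j U ∘ₗ pr (D.ed j) M (qe sd b e) U +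
        sg b • (sl (D.vt j) M U (en b e) ∘ₗ rb M b U e ∘ₗ cp (D.ed j) M U e) := by
    refine s_ext (D.ed j) M fun e' z => ?_
    show pr (D.vt j) M (side sd b e) U (D.bd M j U (sl (D.ed j) M U e' z)) =
      D.bd M j U (pr (D.ed j) M (qe sd b e) U (sl (D.ed j) M U e' z)) +
        sg b • sl (D.vt j) M U (en b e) (rb M b U e (cp (D.ed j) M U e (sl (D.ed j) M U e' z)))
    by_cases h : e' = e
    · subst h
      rw [pr_neg (D.ed j) M U (q := qe sd b e') (fun h => h.1 rfl), map_zero, zero_add, cp_sl,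
        bd_sl' M b, map_add, map_zsmul, map_zsmul, pr_pos (D.vt j) M U (side_en hs b e'),
        pr_neg (D.vt j) M U (fun h' => side_not (side_en hs (!b) e') (by rwa [Bool.not_not])),
        smul_zero, add_zero]
    · rw [cp_sl_ne (D.ed j) M U h, map_zero, map_zero, smul_zero, add_zero, bd_sl, map_sub]
      by_cases h1 : side sd b e (D.s j e')
      · rw [pr_pos (D.ed j) M U (q := qe sd b e) ⟨h, h1⟩, bd_sl,
          pr_pos (D.vt j) M U ((side_ne hs b h true).2 h1),
          pr_pos (D.vt j) M U ((side_ne hs b h false).2 h1)]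
      · rw [pr_neg (D.ed j) M U (q := qe sd b e) (fun h' => h1 h'.2), map_zero,
          pr_neg (D.vt j) M U (fun h' => h1 ((side_ne hs b h true).1 h')),
          pr_neg (D.vt j) M U (fun h' => h1 ((side_ne hs b h false).1 h')), sub_zero]
  exact LinearMap.congr_fun h y

include hs in
/-- The inverse image of an element at an end of an edge, after replacing the element by the
restriction of the component. -/
theorem star (b : Bool) (U : T.Box) (e : D.E j)
    (x : M.obj (op (Bx.of (T.up j U (D.vt j (en b e)))))) :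
    sg b • bi M hM U (sl (D.vt j) M U (en b e) (rb M b U e
        (cp (D.ed j) M U e (bi M hM U (sl (D.vt j) M U (en b e) x))))) =
      sl (D.ed j) M U e (cp (D.ed j) M U e (bi M hM U (sl (D.vt j) M U (en b e) x))) +
      pr (D.ed j) M (qe sd (!b) e) U (bi M hM U (sl (D.vt j) M U (en b e) x)) := by
  have h1 := bd_pr M hs (!b) U e (bi M hM U (sl (D.vt j) M U (en b e) x))
  rw [bd_bi, pr_neg (D.vt j) M U (side_not (side_en hs b e))] at h1
  refine (hM U).1 ?_
  rw [map_zsmul, bd_bi, map_add, bd_sl' M b]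
  rw [add_assoc, add_comm (sg (!b) • _) _, ← h1, add_zero]

/-! ### The projections of the values at the edges -/

/-- The component of the inverse image of the restriction to an end. -/
noncomputable def pj (b : Bool) (U : T.Box) (e : D.E j) :
    M.obj (op (Bx.of (T.up j U (D.ed j e)))) →ₗ[k] M.obj (op (Bx.of (T.up j U (D.ed j e)))) :=
  sg b • (cp (D.ed j) M U e ∘ₗ bi M hM U ∘ₗ sl (D.vt j) M U (en b e) ∘ₗ rb M b U e)

theorem pj_apply (b : Bool) (U : T.Box) (e : D.E j)
    (z : M.obj (op (Bx.of (T.up j U (D.ed j e))))) : pj M hM b U e z =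
      sg b • cp (D.ed j) M U e (bi M hM U (sl (D.vt j) M U (en b e) (rb M b U e z))) := rfl

theorem pj_add (U : T.Box) (e : D.E j) (z : M.obj (op (Bx.of (T.up j U (D.ed j e))))) :
    pj M hM true U e z + pj M hM false U e z = z := by
  have h1 := congrArg (cp (D.ed j) M U e) (bi_bd M hM U (sl (D.ed j) M U e z))
  rw [cp_sl, bd_sl' M true, map_add, map_add, map_zsmul, map_zsmul, map_zsmul, map_zsmul] at h1
  exact h1

include hs in
/-- The values of the components at the end `b` are fixed. -/
theorem pj_cp (b : Bool) (U : T.Box) (e : D.E j)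
    (x : M.obj (op (Bx.of (T.up j U (D.vt j (en b e)))))) :
    pj M hM b U e (cp (D.ed j) M U e (bi M hM U (sl (D.vt j) M U (en b e) x))) =
      cp (D.ed j) M U e (bi M hM U (sl (D.vt j) M U (en b e) x)) := by
  have h1 := congrArg (cp (D.ed j) M U e) (star M hM hs b U e x)
  rw [map_zsmul, map_add, cp_sl, cp_pr (D.ed j) M U (fun h => h.1 rfl), add_zero] at h1
  exact h1

include hs in
/-- The inverse image of the restriction of a fixed element has no components at the side of the
end. -/
theorem cp_far (b : Bool) (U : T.Box) {e e' : D.E j} (h : ¬ qe sd (!b) e e') (hne : e' ≠ e)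
    {z : M.obj (op (Bx.of (T.up j U (D.ed j e))))} (hz : pj M hM b U e z = z) :
    cp (D.ed j) M U e' (bi M hM U (sl (D.vt j) M U (en b e) (rb M b U e z))) = 0 := by
  have h1 := star M hM hs b U e (rb M b U e z)
  have h2 : cp (D.ed j) M U e (bi M hM U (sl (D.vt j) M U (en b e) (rb M b U e z))) =
      sg b • z := by
    rw [pj_apply] at hz
    have h3 := congrArg (fun w => sg b • w) hz
    rwa [sg_sg] at h3
  rw [h2, map_zsmul, map_zsmul, map_zsmul, sg_sg, map_zsmul] at h1
  rw [h1, map_add, map_zsmul, cp_sl_ne (D.ed j) M U hne.symm, smul_zero, zero_add,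
    cp_pr (D.ed j) M U h]

/-- The projections are natural. -/
theorem pj_nat (b : Bool) {U V : T.Box} (g : Γ) (hg : (T.P (Finset.univ.erase j)).le U (g • V))
    (e : D.E j) (z : M.obj (op (Bx.of (T.up j V (D.ed j e))))) :
    pj M hM b U (g • e) ((M.map (tu g hg (K.ed_smul g e)).op).hom z) =
      (M.map (tu g hg (K.ed_smul g e)).op).hom (pj M hM b V e z) := by
  have e1 : ∀ (n : ℤ) (w : M.obj (op (Bx.of (T.up j V (D.ed j e))))),
      (M.map (tu g hg (K.ed_smul g e)).op).hom (n • w) =
        n • (M.map (tu g hg (K.ed_smul g e)).op).hom w := fun n w => map_zsmul _ n w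
  rw [pj_apply, pj_apply, e1, ← cp_ta, ← bi_ta K M hM, ta_sl]
  refine congrArg (fun w => sg b • cp (D.ed j) M U (g • e) (bi M hM U w)) ?_
  rw [rb, rb, mm, mm]
  exact sl_eq (D.vt j) M (en_smul K b g e) _ _ (by simp) z

include K in
theorem pj_nat' (b : Bool) {U V : T.Box} (g : Γ) (hg : (T.P (Finset.univ.erase j)).le U (g • V))
    {e e' : D.E j} (he : e' = g • e)
    (q : (Bx.of (T.up j U (D.ed j e')) : Bx (T.P Finset.univ)) ⟶ Bx.of (T.up j V (D.ed j e)))
    (hq : Bx.el q = g) (z : M.obj (op (Bx.of (T.up j V (D.ed j e))))) :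
    pj M hM b U e' ((M.map q.op).hom z) = (M.map q.op).hom (pj M hM b V e z) := by
  subst he
  obtain rfl : q = tu g hg (K.ed_smul g e) := Bx.hom_ext hq
  exact pj_nat K M hM b g hg e z

theorem pj_pj (hs : Sides D j sd) (b : Bool) (U : T.Box) (e : D.E j)
    (z : M.obj (op (Bx.of (T.up j U (D.ed j e))))) :
    pj M hM b U e (pj M hM b U e z) = pj M hM b U e z := by
  have h1 := pj_cp M hM hs b U e (rb M b U e z)
  have h2 := congrArg (fun w => sg b • w) h1
  rw [pj_apply M hM b U e z, map_zsmul]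
  exact h2

/-! ### The functors -/

/-- The values at the edges. -/
noncomputable abbrev NE : Fn k (zP T j (D.E j)) := (pb k (zm (D.ed j) K.ed_smul)).obj M

/-- The values at the vertices. -/
noncomputable abbrev NV : Fn k (zP T j (D.V j)) := (pb k (zm (D.vt j) K.vt_smul)).obj M

/-- The fibration of an end. -/
noncomputable abbrev qb (b : Bool) : Dfib (zP T j (D.E j)) (zP T j (D.V j)) :=
  zq (en b) (en_smul K b)

/-- The projections. -/
noncomputable def pN (b : Bool) : NE K M ⟶ NE K M where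
  app W := ModuleCat.ofHom (pj M hM b W.unop.pt.2 W.unop.pt.1)
  naturality W W' f := by
    refine ModuleCat.hom_ext (LinearMap.ext fun z => ?_)
    have hle := Bx.le_el f.unop
    exact pj_nat' K M hM b (Bx.el f.unop) hle.2 hle.1
      ((bxF (zm (D.ed j) K.ed_smul)).map f.unop) rfl z

/-- The value of the direct image. -/
abbrev YT (b : Bool) (v : D.V j) (U : T.Box) : Type u :=
  DirectSum (Fb (qb K b) (v, U)) fun c => (NE K M).obj (op (Bx.of c.1))

/-- The index of an edge. -/
def ix (b : Bool) {v : D.V j} (U : T.Box) {e : D.E j} (h : en b e = v) : Fb (qb K b) (v, U) :=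
  ⟨(e, U), Prod.ext h rfl⟩

/-- A component. -/
noncomputable def cY (b : Bool) {v : D.V j} {U : T.Box} {e : D.E j} (h : en b e = v) :
    YT K M b v U →ₗ[k] M.obj (op (Bx.of (T.up j U (D.ed j e)))) :=
  DirectSum.component k _ (fun c => (NE K M).obj (op (Bx.of c.1))) (ix K b U h)

/-- A summand. -/
noncomputable def lY (b : Bool) {v : D.V j} {U : T.Box} {e : D.E j} (h : en b e = v) :
    M.obj (op (Bx.of (T.up j U (D.ed j e)))) →ₗ[k] YT K M b v U :=
  yl (qb K b) (NE K M) (ix K b U h)

theorem cY_ext (b : Bool) {v : D.V j} {U : T.Box} {Y Y' : YT K M b v U}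
    (h : ∀ (e : D.E j) (h : en b e = v), cY K M b h Y = cY K M b h Y') : Y = Y' := by
  refine DFinsupp.ext fun c => ?_
  obtain ⟨⟨e, U'⟩, hc⟩ := c
  have h1 : U' = U := congrArg Prod.snd hc
  subst h1
  exact h e (congrArg Prod.fst hc)

theorem lY_ext (b : Bool) {v : D.V j} {U : T.Box} {Z : Type u} [AddCommGroup Z] [Module k Z]
    {f g : YT K M b v U →ₗ[k] Z}
    (h : ∀ (e : D.E j) (h : en b e = v) z, f (lY K M b h z) = g (lY K M b h z)) : f = g := by
  refine y_ext (qb K b) (NE K M) fun c z => ?_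
  obtain ⟨⟨e, U'⟩, hc⟩ := c
  have h1 : U' = U := congrArg Prod.snd hc
  subst h1
  exact h e (congrArg Prod.fst hc) z

theorem cY_lY (b : Bool) {v : D.V j} {U : T.Box} {e : D.E j} (h : en b e = v)
    (z : M.obj (op (Bx.of (T.up j U (D.ed j e))))) : cY K M b h (lY K M b h z) = z := by
  exact c_l _ (fun c : Fb (qb K b) (v, U) => (NE K M).obj (op (Bx.of c.1))) (ix K b U h) z

theorem cY_lY_ne (b : Bool) {v : D.V j} {U : T.Box} {e e' : D.E j} (h : en b e = v)
    (h' : en b e' = v) (hne : e ≠ e')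
    (z : M.obj (op (Bx.of (T.up j U (D.ed j e))))) : cY K M b h' (lY K M b h z) = 0 := by
  exact c_l_ne _ (fun c : Fb (qb K b) (v, U) => (NE K M).obj (op (Bx.of c.1)))
    (i := ix K b U h) (i' := ix K b U h') (fun h2 => hne (congrArg (fun c => c.1.1) h2).symm) z

open Classical in
/-- The map from the sum over the edges to the sum over the edges at a vertex. -/
noncomputable def kap (b : Bool) (v : D.V j) (U : T.Box) : SS (D.ed j) M U →ₗ[k] YT K M b v U :=
  DirectSum.toModule k (D.E j) _ fun e => if h : en b e = v then sg b • lY K M b h else 0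

theorem kap_pos (b : Bool) {v : D.V j} {U : T.Box} {e : D.E j} (h : en b e = v)
    (z : M.obj (op (Bx.of (T.up j U (D.ed j e))))) :
    kap K M b v U (sl (D.ed j) M U e z) = sg b • lY K M b h z := by
  classical
  rw [kap]
  erw [DirectSum.toModule_lof]
  rw [dif_pos h]
  rfl

theorem kap_neg (b : Bool) {v : D.V j} {U : T.Box} {e : D.E j} (h : en b e ≠ v)
    (z : M.obj (op (Bx.of (T.up j U (D.ed j e))))) :
    kap K M b v U (sl (D.ed j) M U e z) = 0 := by
  classical
  rw [kap]
  erw [DirectSum.toModule_lof]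
  rw [dif_neg h]
  rfl

theorem cY_kap (b : Bool) {v : D.V j} {U : T.Box} {e : D.E j} (h : en b e = v)
    (y : SS (D.ed j) M U) : cY K M b h (kap K M b v U y) = sg b • cp (D.ed j) M U e y := by
  have h1 : cY K M b h ∘ₗ kap K M b v U = sg b • cp (D.ed j) M U e := by
    refine s_ext (D.ed j) M fun e' z => ?_
    rw [LinearMap.comp_apply, LinearMap.smul_apply]
    by_cases h' : en b e' = v
    · rw [kap_pos K M b h', map_zsmul]
      by_cases h2 : e' = e
      · subst h2
        rw [cY_lY, cp_sl]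
      · rw [cY_lY_ne K M b h' h h2, cp_sl_ne (D.ed j) M U h2]
    · rw [kap_neg K M b h', map_zero, cp_sl_ne (D.ed j) M U (fun h2 => h' (by rw [h2, h])),
        smul_zero]
  exact LinearMap.congr_fun h1 y

theorem kap_nat (b : Bool) {v v' : D.V j} {U U' : T.Box}
    (f : (Bx.of (v', U') : Bx (zP T j (D.V j))) ⟶ Bx.of (v, U)) (y : SS (D.ed j) M U) :
    ym (qb K b) (NE K M) f (kap K M b v U y) =
      kap K M b v' U' (ta (D.ed j) K.ed_smul M (Bx.el f) (Bx.le_el f).2 y) := by
  have h : (ym (qb K b) (NE K M) f : YT K M b v U →ₗ[k] YT K M b v' U') ∘ₗ kap K M b v U =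
      kap K M b v' U' ∘ₗ ta (D.ed j) K.ed_smul M (Bx.el f) (Bx.le_el f).2 := by
    refine s_ext (D.ed j) M fun e z => ?_
    rw [LinearMap.comp_apply, LinearMap.comp_apply, ta_sl]
    have hv : v' = Bx.el f • v := (Bx.le_el f).1
    by_cases h : en b e = v
    · have h' : en b (Bx.el f • e) = v' :=
        (en_smul K b _ _).trans ((congrArg (fun w => Bx.el f • w) h).trans hv.symm)
      rw [kap_pos K M b h, kap_pos K M b h', map_zsmul]
      refine congrArg (fun w => sg b • w) ?_
      have hle : (zP T j (D.E j)).le (ix K b U' h').1 (Bx.el f • (ix K b U h).1) :=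
        ⟨rfl, (Bx.le_el f).2⟩
      have e1 : ix K b U' h' = (qb K b).tr f (ix K b U h) :=
        (qb K b).eq_tr f (ix K b U h) (ix K b U' h') hle
      refine (ym_yl (qb K b) (NE K M) f (ix K b U h) z).trans ?_
      exact yl_eq (qb K b) (NE K M) e1.symm ((qb K b).hm f (ix K b U h))
        (Bx.mk' (Bx.el f) hle) rfl z
    · have h' : en b (Bx.el f • e) ≠ v' := fun h2 =>
        h (smul_left_cancel (Bx.el f) ((en_smul K b _ _).symm.trans (h2.trans hv)))
      rw [kap_neg K M b h, kap_neg K M b h', map_zero]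
  exact LinearMap.congr_fun h y

/-- The map from the values at the vertices to the sum over the edges. -/
noncomputable def sU (b : Bool) (v : D.V j) (U : T.Box) :
    M.obj (op (Bx.of (T.up j U (D.vt j v)))) →ₗ[k] YT K M b v U :=
  kap K M b v U ∘ₗ bi M hM U ∘ₗ sl (D.vt j) M U v

theorem sU_nat (b : Bool) {v v' : D.V j} {U U' : T.Box}
    (f : (Bx.of (v', U') : Bx (zP T j (D.V j))) ⟶ Bx.of (v, U))
    (x : M.obj (op (Bx.of (T.up j U (D.vt j v))))) :
    sU K M hM b v' U' ((M.map ((bxF (zm (D.vt j) K.vt_smul)).map f).op).hom x) =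
      ym (qb K b) (NE K M) f (sU K M hM b v U x) := by
  show kap K M b v' U' (bi M hM U' (sl (D.vt j) M U' v' _)) =
    ym (qb K b) (NE K M) f (kap K M b v U (bi M hM U (sl (D.vt j) M U v x)))
  rw [kap_nat, ← bi_ta K M hM, ta_sl]
  refine congrArg (fun w => kap K M b v' U' (bi M hM U' w)) ?_
  exact sl_eq (D.vt j) M (Bx.le_el f).1 _ _ rfl x

/-- The map from the values at the vertices to the sum over the edges. -/
noncomputable def sN (b : Bool) : NV K M ⟶ (yy (qb K b)).obj (NE K M) where
  app W := ModuleCat.ofHom (sU K M hM b W.unop.pt.1 W.unop.pt.2)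
  naturality W W' f := by
    refine ModuleCat.hom_ext (LinearMap.ext fun x => ?_)
    exact sU_nat K M hM b f.unop x

theorem le_fb (b : Bool) {v : D.V j} {U : T.Box} (c : Fb (qb K b) (v, U)) :
    (T.P Finset.univ).le (T.up j U (D.vt j v)) (T.up j c.1.2 (D.ed j c.1.1)) := by
  obtain ⟨⟨e, U'⟩, hc⟩ := c
  have h1 : U' = U := congrArg Prod.snd hc
  have h2 : en b e = v := congrArg Prod.fst hc
  subst h1 h2
  exact T.up_le _ j U' (enle b e)

open Classical in
/-- The sum of the restrictions. -/
noncomputable def rU (b : Bool) (v : D.V j) (U : T.Box) :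
    YT K M b v U →ₗ[k] M.obj (op (Bx.of (T.up j U (D.vt j v)))) :=
  DirectSum.toModule k (Fb (qb K b) (v, U)) _ fun c =>
    ((M.map (Bx.ofLe (le_fb K b c)).op).hom :
      M.obj (op (Bx.of (T.up j c.1.2 (D.ed j c.1.1)))) →ₗ[k]
        M.obj (op (Bx.of (T.up j U (D.vt j v)))))

theorem rU_yl (b : Bool) (v : D.V j) (U : T.Box) (c : Fb (qb K b) (v, U))
    (z : M.obj (op (Bx.of (T.up j c.1.2 (D.ed j c.1.1))))) :
    rU K M b v U (yl (qb K b) (NE K M) c z) = (M.map (Bx.ofLe (le_fb K b c)).op).hom z := by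
  classical
  rw [rU]
  erw [DirectSum.toModule_lof]

theorem rU_lY (b : Bool) (U : T.Box) (e : D.E j)
    (z : M.obj (op (Bx.of (T.up j U (D.ed j e))))) :
    rU K M b (en b e) U (lY K M b rfl z) = rb M b U e z :=
  rU_yl K M b (en b e) U (ix K b U rfl) z

theorem rU_nat (b : Bool) {v v' : D.V j} {U U' : T.Box}
    (f : (Bx.of (v', U') : Bx (zP T j (D.V j))) ⟶ Bx.of (v, U)) (y : YT K M b v U) :
    rU K M b v' U' (ym (qb K b) (NE K M) f y) =
      (M.map ((bxF (zm (D.vt j) K.vt_smul)).map f).op).hom (rU K M b v U y) := by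
  have h : rU K M b v' U' ∘ₗ (ym (qb K b) (NE K M) f : YT K M b v U →ₗ[k] YT K M b v' U') =
      (M.map ((bxF (zm (D.vt j) K.vt_smul)).map f).op).hom ∘ₗ rU K M b v U := by
    refine y_ext (qb K b) (NE K M) fun c z => ?_
    show rU K M b v' U' (ym (qb K b) (NE K M) f (yl (qb K b) (NE K M) c z)) =
      (M.map ((bxF (zm (D.vt j) K.vt_smul)).map f).op).hom
        (rU K M b v U (yl (qb K b) (NE K M) c z))
    have e0 := ym_yl (qb K b) (NE K M) f c z
    have e1 := rU_yl K M b v U c z
    have e2 := rU_yl K M b v' U' ((qb K b).tr f c)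
      (((NE K M).map ((qb K b).hm f c).op).hom z)
    refine ((congrArg (rU K M b v' U') e0).trans e2).trans (Eq.trans ?_
      (congrArg (M.map ((bxF (zm (D.vt j) K.vt_smul)).map f).op).hom e1).symm)
    have e3 := mm M (Bx.ofLe (le_fb K b ((qb K b).tr f c)))
      ((bxF (zm (D.ed j) K.ed_smul)).map ((qb K b).hm f c)) z
    have e4 := mm M ((bxF (zm (D.vt j) K.vt_smul)).map f) (Bx.ofLe (le_fb K b c)) z
    refine e3.trans (Eq.trans ?_ e4.symm)
    refine m_eq M ?_ z
    show (1 : Γ) * Bx.el f = Bx.el f * 1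
    rw [one_mul, mul_one]
  exact LinearMap.congr_fun h y

/-- The sum of the restrictions. -/
noncomputable def rN (b : Bool) : (yy (qb K b)).obj (NE K M) ⟶ NV K M where
  app W := ModuleCat.ofHom (rU K M b W.unop.pt.1 W.unop.pt.2)
  naturality W W' f := by
    refine ModuleCat.hom_ext (LinearMap.ext fun x => ?_)
    exact rU_nat K M b f.unop x

/-! ### The relations -/

theorem rU_kap (b : Bool) (v : D.V j) (U : T.Box) (e : D.E j)
    (z : M.obj (op (Bx.of (T.up j U (D.ed j e))))) :
    rU K M b v U (kap K M b v U (sl (D.ed j) M U e z)) =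
      sg b • cp (D.vt j) M U v (sl (D.vt j) M U (en b e) (rb M b U e z)) := by
  by_cases h : en b e = v
  · subst h
    rw [kap_pos K M b rfl, map_zsmul, rU_lY, cp_sl]
  · rw [kap_neg K M b h, map_zero, cp_sl_ne (D.vt j) M U h, smul_zero]

theorem rU_sU (v : D.V j) (U : T.Box) (x : M.obj (op (Bx.of (T.up j U (D.vt j v))))) :
    rU K M true v U (sU K M hM true v U x) + rU K M false v U (sU K M hM false v U x) = x := by
  have h : ∀ y : SS (D.ed j) M U, rU K M true v U (kap K M true v U y) +
      rU K M false v U (kap K M false v U y) = cp (D.vt j) M U v (D.bd M j U y) := by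
    intro y
    have h1 : rU K M true v U ∘ₗ kap K M true v U + rU K M false v U ∘ₗ kap K M false v U =
        cp (D.vt j) M U v ∘ₗ D.bd M j U := by
      refine s_ext (D.ed j) M fun e z => ?_
      rw [LinearMap.add_apply, LinearMap.comp_apply, LinearMap.comp_apply, LinearMap.comp_apply,
        rU_kap, rU_kap, bd_sl' M true, map_add, map_zsmul, map_zsmul]
      rfl
    exact LinearMap.congr_fun h1 y
  refine (h (bi M hM U (sl (D.vt j) M U v x))).trans ?_
  rw [bd_bi, cp_sl]

theorem sN_rN : sN K M hM true ≫ rN K M true + sN K M hM false ≫ rN K M false = 𝟙 (NV K M) := by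
  refine NatTrans.ext (funext fun W => ModuleCat.hom_ext (LinearMap.ext fun x => ?_))
  exact rU_sU K M hM W.unop.pt.1 W.unop.pt.2 x

theorem pN_add : pN K M hM true + pN K M hM false = 𝟙 (NE K M) := by
  refine NatTrans.ext (funext fun W => ModuleCat.hom_ext (LinearMap.ext fun x => ?_))
  exact pj_add M hM W.unop.pt.2 W.unop.pt.1 x

include hs in
theorem pN_pN (b : Bool) : pN K M hM b ≫ pN K M hM b = pN K M hM b := by
  refine NatTrans.ext (funext fun W => ModuleCat.hom_ext (LinearMap.ext fun x => ?_))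
  exact pj_pj M hM hs b W.unop.pt.2 W.unop.pt.1 x

theorem cY_yL (b : Bool) {v : D.V j} {U : T.Box} {e : D.E j} (h : en b e = v)
    (y : YT K M b v U) : cY K M b h (yL (qb K b) (pN K M hM b) (v, U) y) =
      pj M hM b U e (cY K M b h y) := by
  have h1 : cY K M b h ∘ₗ (yL (qb K b) (pN K M hM b) (v, U) : YT K M b v U →ₗ[k] YT K M b v U) =
      pj M hM b U e ∘ₗ cY K M b h := by
    refine lY_ext K M b fun e' h' z => ?_
    rw [LinearMap.comp_apply, LinearMap.comp_apply]
    have e1 : yL (qb K b) (pN K M hM b) (v, U) (lY K M b h' z) =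
        lY K M b h' (pj M hM b U e' z) :=
      yL_yl (qb K b) (pN K M hM b) (ix K b U h') z
    rw [e1]
    by_cases h2 : e' = e
    · subst h2
      rw [cY_lY, cY_lY]
    · rw [cY_lY_ne K M b h' h h2, cY_lY_ne K M b h' h h2, map_zero]
  exact LinearMap.congr_fun h1 y

include hs in
theorem sU_pj (b : Bool) (v : D.V j) (U : T.Box)
    (x : M.obj (op (Bx.of (T.up j U (D.vt j v))))) :
    yL (qb K b) (pN K M hM b) (v, U) (sU K M hM b v U x) = sU K M hM b v U x := by
  refine cY_ext K M b fun e h => ?_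
  subst h
  refine (cY_yL K M hM b rfl _).trans ?_
  have h1 : cY K M b rfl (sU K M hM b (en b e) U x) =
      sg b • cp (D.ed j) M U e (bi M hM U (sl (D.vt j) M U (en b e) x)) :=
    cY_kap K M b rfl _
  rw [h1, map_zsmul, pj_cp M hM hs]

include hs in
theorem sN_pN (b : Bool) : sN K M hM b ≫ (yy (qb K b)).map (pN K M hM b) = sN K M hM b := by
  refine NatTrans.ext (funext fun W => ModuleCat.hom_ext (LinearMap.ext fun x => ?_))
  exact sU_pj K M hM hs b W.unop.pt.1 W.unop.pt.2 x

include hs in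
theorem en_eq {b b' : Bool} {e : D.E j} (h : en b' e = en b e) : b' = b := by
  by_contra hb
  have h1 : b' = !b := by
    cases b <;> cases b' <;> simp_all
  subst h1
  exact side_not (side_en hs b e) (h ▸ side_en hs (!b) e)

include hs in
theorem cp_end (b b' : Bool) (U : T.Box) {e e' : D.E j} (h : en b' e' = en b e) (hne : e' ≠ e)
    {z : M.obj (op (Bx.of (T.up j U (D.ed j e))))} (hz : pj M hM b U e z = z) :
    cp (D.ed j) M U e' (bi M hM U (sl (D.vt j) M U (en b e) (rb M b U e z))) = 0 := by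
  refine cp_far M hM hs b U (fun h1 => ?_) hne hz
  have h2 := (side_ne hs (!b) hne b').2 h1.2
  rw [h] at h2
  exact side_not (side_en hs b e) h2

include hs in
theorem sU_rb (b : Bool) (U : T.Box) (e : D.E j)
    {z : M.obj (op (Bx.of (T.up j U (D.ed j e))))} (hz : pj M hM b U e z = z) :
    sU K M hM b (en b e) U (rb M b U e z) = lY K M b rfl z := by
  refine cY_ext K M b fun e' h => ?_
  refine (cY_kap K M b h _).trans ?_
  by_cases hne : e' = e
  · subst hne
    rw [cY_lY]
    exact hz
  · rw [cY_lY_ne K M b rfl h (fun h => hne h.symm)]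
    refine Eq.trans (b := sg b • cp (D.ed j) M U e'
      (bi M hM U (sl (D.vt j) M U (en b e) (rb M b U e z)))) rfl ?_
    rw [cp_end M hM hs b b U h hne hz, smul_zero]

include hs in
theorem sU_rb' (b : Bool) (U : T.Box) (e : D.E j)
    {z : M.obj (op (Bx.of (T.up j U (D.ed j e))))} (hz : pj M hM b U e z = z) :
    sU K M hM (!b) (en b e) U (rb M b U e z) = 0 := by
  refine cY_ext K M (!b) fun e' h => ?_
  refine (cY_kap K M (!b) h _).trans ?_
  rw [map_zero]
  by_cases hne : e' = e
  · subst hne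
    have h1 := en_eq hs h
    cases b
    · exact absurd h1 (by decide)
    · exact absurd h1 (by decide)
  · refine Eq.trans (b := sg (!b) • cp (D.ed j) M U e'
      (bi M hM U (sl (D.vt j) M U (en b e) (rb M b U e z)))) rfl ?_
    rw [cp_end M hM hs b (!b) U h hne hz, smul_zero]

include hs in
theorem yL_rU_sU (b : Bool) (v : D.V j) (U : T.Box) (y : YT K M b v U) :
    sU K M hM b v U (rU K M b v U (yL (qb K b) (pN K M hM b) (v, U) y)) =
      yL (qb K b) (pN K M hM b) (v, U) y := by
  have h1 : sU K M hM b v U ∘ₗ rU K M b v U ∘ₗ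
      (yL (qb K b) (pN K M hM b) (v, U) : YT K M b v U →ₗ[k] YT K M b v U) =
      yL (qb K b) (pN K M hM b) (v, U) := by
    refine lY_ext K M b fun e h z => ?_
    subst h
    have e1 : yL (qb K b) (pN K M hM b) (en b e, U) (lY K M b rfl z) =
        lY K M b rfl (pj M hM b U e z) :=
      yL_yl (qb K b) (pN K M hM b) (ix K b U rfl) z
    show sU K M hM b (en b e) U (rU K M b (en b e) U
      (yL (qb K b) (pN K M hM b) (en b e, U) (lY K M b rfl z))) =
        yL (qb K b) (pN K M hM b) (en b e, U) (lY K M b rfl z)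
    rw [e1, rU_lY, sU_rb K M hM hs b U e (pj_pj M hM hs b U e z)]
  exact LinearMap.congr_fun h1 y

include hs in
theorem yL_rU_sU' (b : Bool) (v : D.V j) (U : T.Box) (y : YT K M b v U) :
    sU K M hM (!b) v U (rU K M b v U (yL (qb K b) (pN K M hM b) (v, U) y)) = 0 := by
  have h1 : sU K M hM (!b) v U ∘ₗ rU K M b v U ∘ₗ
      (yL (qb K b) (pN K M hM b) (v, U) : YT K M b v U →ₗ[k] YT K M b v U) = 0 := by
    refine lY_ext K M b fun e h z => ?_
    subst h
    have e1 : yL (qb K b) (pN K M hM b) (en b e, U) (lY K M b rfl z) =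
        lY K M b rfl (pj M hM b U e z) :=
      yL_yl (qb K b) (pN K M hM b) (ix K b U rfl) z
    show sU K M hM (!b) (en b e) U (rU K M b (en b e) U
      (yL (qb K b) (pN K M hM b) (en b e, U) (lY K M b rfl z))) = 0
    rw [e1, rU_lY, sU_rb' K M hM hs b U e (pj_pj M hM hs b U e z)]
  exact LinearMap.congr_fun h1 y

include hs in
theorem pN_rN_sN (b : Bool) : (yy (qb K b)).map (pN K M hM b) ≫ rN K M b ≫ sN K M hM b =
    (yy (qb K b)).map (pN K M hM b) := by
  refine NatTrans.ext (funext fun W => ModuleCat.hom_ext (LinearMap.ext fun x => ?_))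
  exact yL_rU_sU K M hM hs b W.unop.pt.1 W.unop.pt.2 x

include hs in
theorem pN_rN_sN' (b : Bool) :
    (yy (qb K b)).map (pN K M hM b) ≫ rN K M b ≫ sN K M hM (!b) = 0 := by
  refine NatTrans.ext (funext fun W => ModuleCat.hom_ext (LinearMap.ext fun x => ?_))
  exact yL_rU_sU' K M hM hs b W.unop.pt.1 W.unop.pt.2 x

end

/-! ### Assembly -/

theorem iso_biprod {C : Type*} [Category* C] [Preadditive C] [HasBinaryBiproducts C]
    {X A B : C} (iA : A ⟶ X) (eA : X ⟶ A) (iB : B ⟶ X) (eB : X ⟶ B) (h1 : iA ≫ eA = 𝟙 A)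
    (h2 : iB ≫ eB = 𝟙 B) (h3 : iA ≫ eB = 0) (h4 : iB ≫ eA = 0)
    (h5 : eA ≫ iA + eB ≫ iB = 𝟙 X) : Nonempty (X ≅ A ⊞ B) :=
  ⟨{ hom := biprod.lift eA eB
     inv := biprod.desc iA iB
     hom_inv_id := by
       rw [biprod.lift_desc, h5]
     inv_hom_id := by
       refine biprod.hom_ext' _ _ ?_ ?_
       · rw [biprod.inl_desc_assoc, Category.comp_id]
         refine biprod.hom_ext _ _ ?_ ?_
         · rw [Category.assoc, biprod.lift_fst, h1, biprod.inl_fst]
         · rw [Category.assoc, biprod.lift_snd, h3, biprod.inl_snd]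
       · rw [biprod.inr_desc_assoc, Category.comp_id]
         refine biprod.hom_ext _ _ ?_ ?_
         · rw [Category.assoc, biprod.lift_fst, h4, biprod.inr_fst]
         · rw [Category.assoc, biprod.lift_snd, h2, biprod.inr_snd] }⟩

/-- **SPT.** -/
theorem spt : SptStatement.{u} := by
  intro Γ _ T D j _ _ K sd hs k _ M hM
  have hp := pN_add K M hM
  have hps := pN_pN K M hM hs true
  have hpt := pN_pN K M hM hs false
  have hst : pN K M hM true ≫ pN K M hM false = 0 := by
    have h1 := congrArg (fun w => pN K M hM true ≫ w) hp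
    simp only [Preadditive.comp_add, hps, Category.comp_id] at h1
    exact add_eq_left.1 h1
  have hts : pN K M hM false ≫ pN K M hM true = 0 := by
    have h1 := congrArg (fun w => pN K M hM false ≫ w) hp
    simp only [Preadditive.comp_add, hpt, Category.comp_id] at h1
    exact add_eq_right.1 h1
  obtain ⟨Ns, is, es, h1, h2⟩ := IsIdempotentComplete.idempotents_split (NE K M) _ hps
  obtain ⟨Nt, it, et, h3, h4⟩ := IsIdempotentComplete.idempotents_split (NE K M) _ hpt
  have k1 : is ≫ et = 0 := by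
    have h5 : is ≫ (pN K M hM true ≫ pN K M hM false) ≫ et = 0 := by
      rw [hst, zero_comp, comp_zero]
    rw [← h2, ← h4] at h5
    simpa only [Category.assoc, reassoc_of% h1, h3, Category.comp_id] using h5
  have k2 : it ≫ es = 0 := by
    have h5 : it ≫ (pN K M hM false ≫ pN K M hM true) ≫ es = 0 := by
      rw [hts, zero_comp, comp_zero]
    rw [← h2, ← h4] at h5
    simpa only [Category.assoc, reassoc_of% h3, h1, Category.comp_id] using h5
  have m1 : ∀ {b : Bool} {A : Fn k (zP T j (D.E j))} {i : A ⟶ NE K M} {e : NE K M ⟶ A},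
      i ≫ e = 𝟙 A → e ≫ i = pN K M hM b →
      (yy (qb K b)).map i = (yy (qb K b)).map i ≫ (yy (qb K b)).map (pN K M hM b) := by
    intro b A i e h h'
    rw [← h', ← Functor.map_comp, reassoc_of% h]
  have m2 : ∀ {b : Bool} {A : Fn k (zP T j (D.E j))} {i : A ⟶ NE K M} {e : NE K M ⟶ A},
      i ≫ e = 𝟙 A → e ≫ i = pN K M hM b →
      ((yy (qb K b)).map i ≫ rN K M b) ≫ (sN K M hM b ≫ (yy (qb K b)).map e) = 𝟙 _ := by
    intro b A i e h h'
    have h5 := pN_rN_sN K M hM hs b
    have h6 : ((yy (qb K b)).map i ≫ rN K M b) ≫ (sN K M hM b ≫ (yy (qb K b)).map e) =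
        (yy (qb K b)).map i ≫ ((yy (qb K b)).map (pN K M hM b) ≫ rN K M b ≫ sN K M hM b) ≫
          (yy (qb K b)).map e := by
      rw [m1 h h']
      simp only [Category.assoc]
      rw [← Functor.map_comp_assoc, ← Functor.map_comp_assoc, ← Functor.map_comp_assoc, Category.assoc,
        pN_pN K M hM hs b]
    rw [h6, h5, ← h', ← Functor.map_comp, ← Functor.map_comp, Category.assoc, h, Category.comp_id, h,
      CategoryTheory.Functor.map_id]
  have m3 : ∀ {b : Bool} {A B : Fn k (zP T j (D.E j))} {i : A ⟶ NE K M} {e : NE K M ⟶ A}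
      (e' : NE K M ⟶ B), i ≫ e = 𝟙 A → e ≫ i = pN K M hM b →
      ((yy (qb K b)).map i ≫ rN K M b) ≫ (sN K M hM (!b) ≫ (yy (qb K (!b))).map e') = 0 := by
    intro b A B i e e' h h'
    have h5 := pN_rN_sN' K M hM hs b
    have h6 : ((yy (qb K b)).map i ≫ rN K M b) ≫ (sN K M hM (!b) ≫ (yy (qb K (!b))).map e') =
        (yy (qb K b)).map i ≫ ((yy (qb K b)).map (pN K M hM b) ≫ rN K M b ≫ sN K M hM (!b)) ≫
          (yy (qb K (!b))).map e' := by
      rw [m1 h h']
      simp only [Category.assoc]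
      rw [← Functor.map_comp_assoc, ← Functor.map_comp_assoc, ← Functor.map_comp_assoc, Category.assoc,
        pN_pN K M hM hs b]
    rw [h6, h5, zero_comp, comp_zero]
  have h5 : ∀ b : Bool, (sN K M hM b ≫ (yy (qb K b)).map (pN K M hM b)) ≫ rN K M b =
      sN K M hM b ≫ rN K M b := fun b => by rw [sN_pN K M hM hs b]
  have h6 := h5 true
  have h7 := h5 false
  rw [← h2, Functor.map_comp] at h6
  rw [← h4, Functor.map_comp] at h7
  have h8 : (sN K M hM true ≫ (yy (qb K true)).map es) ≫ (yy (qb K true)).map is ≫ rN K M true +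
      (sN K M hM false ≫ (yy (qb K false)).map et) ≫ (yy (qb K false)).map it ≫ rN K M false =
      𝟙 (NV K M) := by
    simp only [Category.assoc] at h6 h7 ⊢
    rw [h6, h7]
    exact sN_rN K M hM
  have h9 : Nonempty (NV K M ≅ (yy (qb K true)).obj Ns ⊞ (yy (qb K false)).obj Nt) :=
    iso_biprod ((yy (qb K true)).map is ≫ rN K M true)
      (sN K M hM true ≫ (yy (qb K true)).map es)
      ((yy (qb K false)).map it ≫ rN K M false) (sN K M hM false ≫ (yy (qb K false)).map et)
      (m2 h1 h2) (m2 h3 h4) (m3 et h1 h2) (m3 es h3 h4) h8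
  exact ⟨Ns, Nt, iso_biprod is es it et h1 h3 k1 k2 (by rw [h2, h4, hp]), h9⟩

end Pool.Agent.NegK.NT.EX67
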